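import Pool.Agent.Helper227.TD.Exist

set_option autoImplicit false

open Pool.Agent.Helper227
open scoped ENNReal

namespace Pool.Agent.Results.MP_2976e9_lc.OppositeOrder

/-- Universal expectation-bounded tests and universal probability-bounded tests exist, and for
every choice of them and every constant `c` there are Martin-Löf random sequences `X`, `Y` (with
finite deficiencies) such that `d_E(X) ≥ d_E(Y) + c` and `d_P(Y) ≥ d_P(X) + c`. -/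
theorem result :
    (∃ tE : (ℕ → Bool) → ℝ≥0∞, IsUnivE tE) ∧ (∃ tP : (ℕ → Bool) → ℝ≥0∞, IsUnivP tP) ∧
    ∀ tE tP : (ℕ → Bool) → ℝ≥0∞, IsUnivE tE → IsUnivP tP → ∀ c : ℝ,
      ∃ X Y : ℕ → Bool, MLRandom X ∧ MLRandom Y ∧
        (tE X ≠ 0 ∧ tE X ≠ ∞ ∧ tE Y ≠ 0 ∧ tE Y ≠ ∞ ∧ tP X ≠ 0 ∧ tP X ≠ ∞ ∧ tP Y ≠ 0 ∧ tP Y ≠ ∞) ∧
        defi tE X ≥ defi tE Y + c ∧ defi tP Y ≥ defi tP X + c := by
  refine ⟨⟨_, isUnivE_tE⟩, ⟨_, isUnivP_tP⟩, fun tE tP hE hP c => ?_⟩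
  obtain ⟨n, hn⟩ := exists_nat_ge c
  obtain ⟨X, Y, h1, h2, h3, h4, h5⟩ := td_main hE hP n
  exact ⟨X, Y, h1, h2, h3, by linarith, by linarith⟩

end Pool.Agent.Results.MP_2976e9_lc.OppositeOrder
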